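import Pool.Agent.R84.InvCommon

/-!
# The inverse Turan number of paths of odd length

For every `t ≥ 1` one has `ex⁻¹(k, P_{2t+1}) = C(⌊k/t⌋, 2) + o(k²)`.

Upper bound: let `ex(G, P_{2t+1}) < k`. Spanning star forests show that `G` has less than `2k`
non-isolated vertices. Choose constantly many pairwise disjoint sets of `t` hubs greedily, such that
almost all vertices of degree at least `γ k` are joined to all vertices of one of the hub sets. The
resulting disjoint union of graphs `K_{t,m}` contains no path with `2t+1` edges. So there are at most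
`(1 + o(1)) k / t` vertices of degree at least `γ k`.
Lower bound: complete graphs and the theorem of Erdos and Gallai.
-/

set_option autoImplicit false

namespace Pool.Agent.Results.MP_002b89_co.OddPaths

open Finset SimpleGraph Asymptotics Filter
open Pool.Agent.R84.EG Pool.Agent.R84.Inv Pool.Agent.R84.Hubs Pool.Agent.R84.InvCommon

/-- the upper bound for one graph -/
theorem upper (t : ℕ) (ht : 1 ≤ t) (ε : ℝ) (hε : 0 < ε) : ∃ k₀ : ℕ, ∀ k ≥ k₀,
    ∀ (n : ℕ) (G : SimpleGraph (Fin n)), exIn G (pathGraph (2 * t + 1 + 1)) < k →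
      (G.edgeSet.ncard : ℝ) ≤ (1 / (2 * t ^ 2) + ε) * k ^ 2 := by
  classical
  have ht' : (1 : ℝ) ≤ t := by exact_mod_cast ht
  -- the parameters
  obtain ⟨η, hη0, hη4, hηε⟩ : ∃ η : ℝ, 0 < η ∧ η ≤ 1 / 4 ∧ 2 * η ≤ ε / 4 :=
    ⟨min (1 / 4) (ε / 8), by positivity, min_le_left _ _, by
      have := min_le_right (1 / 4 : ℝ) (ε / 8)
      linarith⟩
  obtain ⟨γ, hγ0, hγ1, hγε⟩ : ∃ γ : ℝ, 0 < γ ∧ γ ≤ 1 ∧ 2 * γ ≤ ε / 4 :=
    ⟨min 1 (ε / 8), by positivity, min_le_left _ _, by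
      have := min_le_right (1 : ℝ) (ε / 8)
      linarith⟩
  obtain ⟨q, hq⟩ : ∃ q, q = γ / 4 := ⟨_, rfl⟩
  have hq0 : 0 < q := by rw [hq]; positivity
  have hq1 : q ≤ 1 := by rw [hq]; linarith
  have hp0 : 0 < q ^ t := pow_pos hq0 t
  have hp1 : q ^ t ≤ 1 := pow_le_one₀ hq0.le hq1
  obtain ⟨s, hs⟩ := exists_pow_lt_of_lt_one hη0 (show 1 - q ^ t < 1 by linarith)
  obtain ⟨C, hC⟩ : ∃ C : ℝ, C = t * (s * (s + 1)) := ⟨_, rfl⟩
  have hC0 : 0 ≤ C := by rw [hC]; positivity
  obtain ⟨k₁, hk₁⟩ := exists_nat_gt (2 * (s * t) / γ)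
  obtain ⟨k₂, hk₂⟩ := exists_nat_gt ((2 * C + C ^ 2) / (ε / 4))
  refine ⟨max (max k₁ k₂) 1, fun k hk n G hG => ?_⟩
  have hk1 : k₁ ≤ k := (le_max_left _ _).trans ((le_max_left _ _).trans hk)
  have hk2 : k₂ ≤ k := (le_max_right _ _).trans ((le_max_left _ _).trans hk)
  have hk0 : 1 ≤ k := (le_max_right _ _).trans hk
  have hk1' : 2 * (s * t) / γ < k := hk₁.trans_le (by exact_mod_cast hk1)
  have hk2' : (2 * C + C ^ 2) / (ε / 4) < k := hk₂.trans_le (by exact_mod_cast hk2)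
  have hkr : (1 : ℝ) ≤ k := by exact_mod_cast hk0
  -- few vertices
  have hsupp := supp_le G (2 * t + 1 + 1) (by omega)
  have hsupp' : ((supp G).card : ℝ) ≤ 2 * k := by
    have : (supp G).card ≤ 2 * k := by omega
    exact_mod_cast this
  -- the hub system
  obtain ⟨hsys, hA⟩ := exists_sys G q hq0.le hq1 (supp G) t s (big G (γ * k)) ∅ (by
    intro v hv
    rw [filter_supp]
    have h1 := (mem_filter.1 hv).2
    refine le_trans ?_ h1
    have h2 : q * (supp G).card ≤ γ / 4 * (2 * k) := by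
      rw [hq]
      exact mul_le_mul_of_nonneg_left hsupp' (by positivity)
    have h3 : 2 * ((s : ℝ) * t) ≤ γ * k := by
      rw [div_lt_iff₀ hγ0] at hk1'
      linarith
    linarith)
  have hedges := hsys.edges
  have hle := le_exIn hsys.graph_le (hsys.graph_free (2 * t + 1 + 1) (by omega))
  have hAk : (t : ℝ) * hsys.A.card ≤ k := by
    have : t * hsys.A.card ≤ k := by omega
    exact_mod_cast this
  obtain ⟨w, hw⟩ : ∃ w : ℝ, w = ((big G (γ * k)).card : ℝ) := ⟨_, rfl⟩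
  have hw0 : 0 ≤ w := by rw [hw]; positivity
  rw [← hw, ← hC] at hA
  have hwk : (1 - η) * w ≤ k / t + C := by
    have h1 : (1 - η) * w ≤ (1 - (1 - q ^ t) ^ s) * w :=
      mul_le_mul_of_nonneg_right (by linarith) hw0
    have h2 : (hsys.A.card : ℝ) ≤ k / t := by
      rw [le_div_iff₀ (by linarith)]
      linarith
    linarith
  -- the number of edges
  have he := edges_le G (γ * k) (by positivity)
  rw [← hw] at he
  have h1 : (supp G).card * (γ * k) ≤ 2 * γ * k ^ 2 := by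
    calc (supp G).card * (γ * k) ≤ (2 * k) * (γ * k) :=
          mul_le_mul_of_nonneg_right hsupp' (by positivity)
      _ = 2 * γ * k ^ 2 := by ring
  have hη1 : (1 : ℝ) ≤ (1 + 4 * η) * (1 - η) ^ 2 := by nlinarith [mul_pos hη0 hη0]
  have h2 : w ^ 2 ≤ (1 + 4 * η) * (k / t + C) ^ 2 := by
    calc w ^ 2 = 1 * w ^ 2 := (one_mul _).symm
      _ ≤ ((1 + 4 * η) * (1 - η) ^ 2) * w ^ 2 := mul_le_mul_of_nonneg_right hη1 (sq_nonneg w)
      _ = (1 + 4 * η) * ((1 - η) * w) ^ 2 := by ring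
      _ ≤ (1 + 4 * η) * (k / t + C) ^ 2 := by
          apply mul_le_mul_of_nonneg_left _ (by positivity)
          exact pow_le_pow_left₀ (mul_nonneg (by linarith) hw0) hwk 2
  have hkt : (k : ℝ) / t ≤ k := div_le_self (by positivity) ht'
  have h3 : (k / t + C) ^ 2 ≤ (k : ℝ) ^ 2 / t ^ 2 + ε / 4 * k ^ 2 := by
    have h4 : (2 * C + C ^ 2) * k ≤ ε / 4 * k ^ 2 := by
      rw [div_lt_iff₀ (by positivity)] at hk2'
      have := mul_le_mul_of_nonneg_right hk2'.le (by positivity : (0 : ℝ) ≤ k)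
      linarith
    have h5 : 2 * (k / t) * C ≤ 2 * C * k := by
      have := mul_le_mul_of_nonneg_right hkt hC0
      linarith
    have h6 : C ^ 2 ≤ C ^ 2 * k := le_mul_of_one_le_right (sq_nonneg C) hkr
    calc (k / t + C) ^ 2 = (k : ℝ) ^ 2 / t ^ 2 + (2 * (k / t) * C + C ^ 2) := by
          rw [← div_pow]
          ring
      _ ≤ (k : ℝ) ^ 2 / t ^ 2 + ε / 4 * k ^ 2 := by linarith
  have h7 : (k : ℝ) ^ 2 / t ^ 2 ≤ k ^ 2 := by
    apply div_le_self (by positivity)
    exact one_le_pow₀ ht'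
  have hk2pos : (0 : ℝ) ≤ (k : ℝ) ^ 2 := sq_nonneg _
  -- final computation
  have h8 : w ^ 2 ≤ (k : ℝ) ^ 2 / t ^ 2 + (4 * η) * k ^ 2 + 2 * (ε / 4 * k ^ 2) := by
    have h9 : (1 + 4 * η) * ((k : ℝ) ^ 2 / t ^ 2 + ε / 4 * k ^ 2) ≤
        (k : ℝ) ^ 2 / t ^ 2 + (4 * η) * k ^ 2 + 2 * (ε / 4 * k ^ 2) := by
      have h10 : 4 * η * ((k : ℝ) ^ 2 / t ^ 2) ≤ 4 * η * k ^ 2 :=
        mul_le_mul_of_nonneg_left h7 (by positivity)
      have h11 : 4 * η * (ε / 4 * (k : ℝ) ^ 2) ≤ 1 * (ε / 4 * k ^ 2) :=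
        mul_le_mul_of_nonneg_right (by linarith) (by positivity)
      linarith
    exact (h2.trans (mul_le_mul_of_nonneg_left h3 (by positivity))).trans h9
  have h12 : (1 / (2 * (t : ℝ) ^ 2) + ε) * k ^ 2 = (k : ℝ) ^ 2 / t ^ 2 / 2 + ε * k ^ 2 := by
    field_simp
  rw [h12]
  have h13 : 4 * η * (k : ℝ) ^ 2 ≤ ε / 2 * k ^ 2 :=
    mul_le_mul_of_nonneg_right (by linarith) hk2pos
  have h14 : 2 * γ * (k : ℝ) ^ 2 ≤ ε / 4 * k ^ 2 :=
    mul_le_mul_of_nonneg_right (by linarith) hk2pos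
  nlinarith

/-- the lower bound -/
theorem lower (t k : ℕ) (ht : 1 ≤ t) (hk : 1 ≤ k) :
    ((k - 1) / t).choose 2 ≤ invEx k (pathGraph (2 * t + 1 + 1)) := by
  classical
  refine le_invEx (by omega) ⟨(k - 1) / t, ⊤, ?_, ?_⟩
  · have h1 : exIn (⊤ : SimpleGraph (Fin ((k - 1) / t))) (pathGraph (2 * t + 1 + 1)) ≤
        t * ((k - 1) / t) := by
      refine exIn_le fun H _ hH => ?_
      have h2 := E_le H (2 * t + 1) (2 * t) (by omega) (fun d hd => by omega)
        (fun S m f hf => path_bound hH S m f hf) (fun C hC => by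
          have h3 : ∀ v ∈ C, (nb H C v).card ≤ 2 * t := by
            intro v hv
            have h4 : nb H C v ⊆ C.erase v := by
              intro y hy
              simp only [nb, mem_filter] at hy
              exact mem_erase.2 ⟨hy.2.ne', hy.1⟩
            have h5 := card_le_card h4
            rw [card_erase_of_mem hv] at h5
            omega
          have h6 := Finset.sum_le_card_nsmul C _ _ h3
          rw [smul_eq_mul, mul_comm] at h6
          exact h6) univ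
      rw [E_univ, card_univ, Fintype.card_fin] at h2
      have h3 : 2 * t * ((k - 1) / t) = 2 * (t * ((k - 1) / t)) := by ring
      omega
    have h2 : t * ((k - 1) / t) ≤ k - 1 := Nat.mul_div_le _ _
    omega
  · have h1 : (⊤ : SimpleGraph (Fin ((k - 1) / t))).edgeSet.ncard =
        #(⊤ : SimpleGraph (Fin ((k - 1) / t))).edgeFinset := by
      rw [← coe_edgeFinset, Set.ncard_coe_finset]
    rw [h1, card_edgeFinset_top_eq_card_choose_two, Fintype.card_fin]

/-- For every `t ≥ 1`, with `P_{2t+1}` the path with `2t+1` edges (`2t+2` vertices):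
the numbers of edges of the graphs `G` with `ex(G,P_{2t+1}) < k` are bounded for every `k`, and their
supremum is `C(⌊k/t⌋, 2) + o(k²)` as `k → ∞`. -/
theorem result : ∀ t : ℕ, 1 ≤ t →
    (∀ k, BddAbove (sizes k (pathGraph (2 * t + 1 + 1)))) ∧
    (fun k : ℕ => (invEx k (pathGraph (2 * t + 1 + 1)) : ℝ) - ((k / t).choose 2 : ℝ))
      =o[atTop] fun k : ℕ => (k : ℝ) ^ 2 := by
  intro t ht
  refine ⟨fun k => sizes_bdd k _ (by omega), ?_⟩
  have ht' : (1 : ℝ) ≤ t := by exact_mod_cast ht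
  rw [isLittleO_iff]
  intro c hc
  obtain ⟨k₀, hk₀⟩ := upper t ht (c / 2) (by positivity)
  obtain ⟨k₁, hk₁⟩ := exists_nat_gt (4 / c)
  filter_upwards [eventually_ge_atTop (max (max k₀ k₁) 1)] with k hk
  have hk0 : k₀ ≤ k := (le_max_left _ _).trans ((le_max_left _ _).trans hk)
  have hk1 : k₁ ≤ k := (le_max_right _ _).trans ((le_max_left _ _).trans hk)
  have hk2 : 1 ≤ k := (le_max_right _ _).trans hk
  have hkr : (1 : ℝ) ≤ k := by exact_mod_cast hk2
  have hkc : 4 ≤ c * k := by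
    have h1 : 4 / c < k := hk₁.trans_le (by exact_mod_cast hk1)
    rw [div_lt_iff₀ hc] at h1
    linarith
  have hkc2 : 4 * (k : ℝ) ≤ c * k ^ 2 := by nlinarith
  have hup := invEx_le (l := 2 * t + 1 + 1) (by omega) (by positivity) (hk₀ k hk0)
  have hlow : ((((k - 1) / t).choose 2 : ℕ) : ℝ) ≤ invEx k (pathGraph (2 * t + 1 + 1)) := by
    exact_mod_cast lower t k ht hk2
  -- the floor
  obtain ⟨a, ha⟩ : ∃ a, a = k / t := ⟨_, rfl⟩
  have ha1 : a * t ≤ k := by rw [ha]; exact Nat.div_mul_le_self _ _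
  have ha2 : k < (a + 1) * t := by
    rw [ha, ← Nat.div_lt_iff_lt_mul (by omega)]
    exact Nat.lt_succ_self _
  have ha1' : (a : ℝ) ≤ k / t := by
    rw [le_div_iff₀ (by linarith)]
    exact_mod_cast ha1
  have ha2' : (k : ℝ) / t < a + 1 := by
    rw [div_lt_iff₀ (by linarith)]
    exact_mod_cast ha2
  have hkt : (k : ℝ) / t ≤ k := div_le_self (by positivity) ht'
  have hchoose : ((a.choose 2 : ℕ) : ℝ) = a * (a - 1) / 2 := Nat.cast_choose_two ℝ a
  -- the lower floor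
  have hb : a ≤ (k - 1) / t + 1 := by
    rw [ha]
    have h1 : k ≤ (k - 1) + t := by omega
    calc k / t ≤ ((k - 1) + t) / t := Nat.div_le_div_right h1
      _ = (k - 1) / t + 1 := Nat.add_div_right _ (by omega)
  have hlow2 : (((a - 1).choose 2 : ℕ) : ℝ) ≤ invEx k (pathGraph (2 * t + 1 + 1)) := by
    refine le_trans ?_ hlow
    exact_mod_cast Nat.choose_le_choose 2 (Nat.sub_le_iff_le_add.2 hb)
  rw [← ha, hchoose, Real.norm_eq_abs, Real.norm_eq_abs, abs_of_nonneg (sq_nonneg (k : ℝ)), abs_le]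
  have ha0 : (0 : ℝ) ≤ a := Nat.cast_nonneg a
  constructor
  · -- lower
    rcases Nat.eq_zero_or_pos a with h0 | h0
    · rw [h0]
      have : (0 : ℝ) ≤ invEx k (pathGraph (2 * t + 1 + 1)) := Nat.cast_nonneg _
      simp only [Nat.cast_zero, zero_mul, zero_div, sub_zero]
      have h1 : 0 ≤ c * (k : ℝ) ^ 2 := by positivity
      linarith
    · have h1 : (((a - 1).choose 2 : ℕ) : ℝ) = (a - 1) * (a - 2) / 2 := by
        rw [Nat.cast_choose_two, Nat.cast_sub h0]
        push_cast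
        ring
      rw [h1] at hlow2
      nlinarith
  · -- upper
    have h1 : (1 / (2 * (t : ℝ) ^ 2) + c / 2) * k ^ 2 = (k / t) ^ 2 / 2 + c / 2 * k ^ 2 := by
      field_simp
    rw [h1] at hup
    have h2 : ((k : ℝ) / t) ^ 2 ≤ (a + 1) ^ 2 :=
      pow_le_pow_left₀ (by positivity) ha2'.le 2
    nlinarith

end Pool.Agent.Results.MP_002b89_co.OddPaths
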